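import Pool.Agent.Lib_helper25.AD.Defs

/-!
# MP_a4bf89_an: basic lemmas
-/

set_option autoImplicit false

open Finset

namespace Pool.Agent.Lib_helper25.AD

open Classical in
theorem res_apply (A : Set ℕ) (x : E) (i : ℕ) : res A x i = if i ∈ A then x i else 0 := by
  simp only [res, LinearMap.coe_mk, AddHom.coe_mk, Finsupp.filter_apply]

theorem res_apply_mem {A : Set ℕ} {i : ℕ} (h : i ∈ A) (x : E) : res A x i = x i := by
  rw [res_apply, if_pos h]

theorem res_apply_not_mem {A : Set ℕ} {i : ℕ} (h : i ∉ A) (x : E) : res A x i = 0 := by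
  rw [res_apply, if_neg h]

theorem mem_supp_res {A : Set ℕ} {x : E} {i : ℕ} :
    i ∈ (res A x).support ↔ i ∈ x.support ∧ i ∈ A := by
  classical
  rw [Finsupp.mem_support_iff, Finsupp.mem_support_iff, res_apply]
  by_cases h : i ∈ A <;> simp [h]

theorem cls_apply (c : ℕ → ℕ) (k : ℕ) (x : E) (i : ℕ) :
    cls c k x i = if c i = k then x i else 0 := by
  classical
  rw [cls, res_apply]
  by_cases h : c i = k <;> simp [h]

theorem mem_supp_cls {c : ℕ → ℕ} {k : ℕ} {x : E} {i : ℕ} :
    i ∈ (cls c k x).support ↔ i ∈ x.support ∧ c i = k := by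
  rw [cls, mem_supp_res]; rfl

theorem supp_cls_subset (c : ℕ → ℕ) (k : ℕ) (x : E) : (cls c k x).support ⊆ x.support :=
  fun _ hi => (mem_supp_cls.1 hi).1

theorem supp_res_subset (A : Set ℕ) (x : E) : (res A x).support ⊆ x.support :=
  fun _ hi => (mem_supp_res.1 hi).1

theorem sum_cls {c : ℕ → ℕ} {m : ℕ} {x : E} (hc : ∀ i ∈ x.support, c i < m) :
    ∑ k ∈ range m, cls c k x = x := by
  ext i
  rw [Finsupp.finset_sum_apply]
  simp only [cls_apply]
  by_cases hi : i ∈ x.support
  · rw [Finset.sum_ite_eq (range m) (c i) (fun _ => x i), if_pos (mem_range.2 (hc i hi))]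
  · have h0 : x i = 0 := by simpa using hi
    simp [h0]

/-- colourings which agree on the support give the same classes -/
theorem cls_congr {c d : ℕ → ℕ} {x : E} (h : ∀ i ∈ x.support, c i = d i) (k : ℕ) :
    cls c k x = cls d k x := by
  ext i
  rw [cls_apply, cls_apply]
  by_cases hi : i ∈ x.support
  · rw [h i hi]
  · have h0 : x i = 0 := by simpa using hi
    simp [h0]

theorem res_res (A B : Set ℕ) (x : E) : res A (res B x) = res (A ∩ B) x := by
  classical
  ext i
  simp only [res_apply, Set.mem_inter_iff]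
  by_cases hA : i ∈ A <;> by_cases hB : i ∈ B <;> simp [hA, hB]

theorem res_self {A : Set ℕ} {x : E} (h : ∀ i ∈ x.support, i ∈ A) : res A x = x := by
  classical
  ext i
  rw [res_apply]
  by_cases hi : i ∈ x.support
  · rw [if_pos (h i hi)]
  · have h0 : x i = 0 := by simpa using hi
    simp [h0]

theorem res_eq_zero {A : Set ℕ} {x : E} (h : ∀ i ∈ x.support, i ∉ A) : res A x = 0 := by
  classical
  ext i
  rw [res_apply]
  by_cases hi : i ∈ x.support
  · rw [if_neg (h i hi)]; rfl
  · have h0 : x i = 0 := by simpa using hi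
    simp [h0]

theorem res_add_compl (A : Set ℕ) (x : E) : res A x + res Aᶜ x = x := by
  classical
  ext i
  rw [Finsupp.add_apply, res_apply, res_apply]
  by_cases hA : i ∈ A <;> simp [hA]

/-! ### blocks -/

theorem IsBlk.bef {y : ℕ → E} (hy : IsBlk y) : ∀ {i j : ℕ}, i < j → Bef (y i) (y j) := by
  intro i j hij
  induction j with
  | zero => omega
  | succ j ih =>
    rcases Nat.lt_succ_iff_lt_or_eq.1 hij with h | h
    · intro a ha b hb
      obtain ⟨t, ht⟩ := Finsupp.support_nonempty_iff.2 (hy.ne j)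
      exact lt_trans (ih h a ha t ht) (hy.lt j t ht b hb)
    · subst h; exact hy.lt i

/-- the start of the `i`-th block -/
noncomputable def st {y : ℕ → E} (hy : IsBlk y) (i : ℕ) : ℕ :=
  (y i).support.min' (Finsupp.support_nonempty_iff.2 (hy.ne i))

theorem st_mem {y : ℕ → E} (hy : IsBlk y) (i : ℕ) : st hy i ∈ (y i).support := min'_mem _ _

theorem st_le {y : ℕ → E} (hy : IsBlk y) {i t : ℕ} (ht : t ∈ (y i).support) : st hy i ≤ t :=
  min'_le _ _ ht

theorem st_strictMono {y : ℕ → E} (hy : IsBlk y) : StrictMono (st hy) :=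
  strictMono_nat_of_lt_succ fun i => hy.lt i _ (st_mem hy i) _ (st_mem hy (i + 1))

theorem le_st {y : ℕ → E} (hy : IsBlk y) (i : ℕ) : i ≤ st hy i := (st_strictMono hy).le_apply

theorem mem_starts {y : ℕ → E} (hy : IsBlk y) {s : ℕ} : s ∈ starts y ↔ ∃ i, s = st hy i := by
  constructor
  · rintro ⟨i, hi, h⟩
    exact ⟨i, le_antisymm (h _ (st_mem hy i)) (st_le hy hi)⟩
  · rintro ⟨i, rfl⟩
    exact ⟨i, st_mem hy i, fun t ht => st_le hy ht⟩

theorem lc_apply (z : ℕ → E) (a : E) : lc z a = ∑ i ∈ a.support, a i • z i := by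
  rw [lc, Finsupp.linearCombination_apply]; rfl

theorem mem_bsp {y : ℕ → E} {x : E} : x ∈ bsp y ↔ ∃ a : E, lc y a = x := by
  rw [bsp, lc]
  exact Finsupp.mem_span_range_iff_exists_finsupp

theorem lc_mem (y : ℕ → E) (a : E) : lc y a ∈ bsp y := mem_bsp.2 ⟨a, rfl⟩

theorem self_mem_bsp (y : ℕ → E) (i : ℕ) : y i ∈ bsp y := Submodule.subset_span ⟨i, rfl⟩

theorem bsp_le {z y : ℕ → E} (h : Le z y) : bsp z ≤ bsp y := by
  rw [bsp, Submodule.span_le]
  rintro _ ⟨i, rfl⟩
  exact h i

theorem Le.refl (y : ℕ → E) : Le y y := fun i => self_mem_bsp y i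

theorem Le.trans {x y z : ℕ → E} (h : Le x y) (h' : Le y z) : Le x z := fun i => bsp_le h' (h i)

theorem Le.star {z y : ℕ → E} (h : Le z y) : LeStar z y := ⟨0, fun i _ => h i⟩

/-! ### the pairing -/

theorem pr_eq_sum {g x : E} {S : Finset ℕ} (h : x.support ⊆ S) :
    pr g x = ∑ i ∈ S, |g i| * |x i| := by
  rw [pr]
  apply Finset.sum_subset h
  intro i _ hi
  have h0 : x i = 0 := by simpa using hi
  simp [h0]

theorem pr_eq_sum' {g x : E} {S : Finset ℕ} (h : g.support ⊆ S) :
    pr g x = ∑ i ∈ S, |g i| * |x i| := by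
  classical
  rw [pr_eq_sum (S := x.support ∪ S) subset_union_left]
  symm
  apply Finset.sum_subset subset_union_right
  intro i _ hi
  have h0 : g i = 0 := by
    by_contra hne
    exact hi (h (by simpa using hne))
  simp [h0]

theorem pr_comm (g x : E) : pr g x = pr x g := by
  rw [pr_eq_sum' (g := g) (x := x) (Finset.Subset.refl _)]
  rw [pr]
  exact Finset.sum_congr rfl fun i _ => mul_comm _ _

theorem pr_nonneg (g x : E) : 0 ≤ pr g x :=
  Finset.sum_nonneg fun _ _ => mul_nonneg (abs_nonneg _) (abs_nonneg _)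

theorem pr_add_le (g x y : E) : pr g (x + y) ≤ pr g x + pr g y := by
  classical
  have h1 : (x + y).support ⊆ x.support ∪ y.support := Finsupp.support_add
  rw [pr_eq_sum h1, pr_eq_sum (g := g) (x := x) (S := x.support ∪ y.support) subset_union_left,
    pr_eq_sum (g := g) (x := y) (S := x.support ∪ y.support) subset_union_right,
    ← Finset.sum_add_distrib]
  apply Finset.sum_le_sum
  intro i _
  rw [← mul_add]
  exact mul_le_mul_of_nonneg_left (by simpa using abs_add_le (x i) (y i)) (abs_nonneg _)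

theorem pr_add_dis (g : E) {x y : E} (h : Dis x y) : pr g (x + y) = pr g x + pr g y := by
  classical
  have h1 : (x + y).support ⊆ x.support ∪ y.support := Finsupp.support_add
  rw [pr_eq_sum h1, pr_eq_sum (g := g) (x := x) (S := x.support ∪ y.support) subset_union_left,
    pr_eq_sum (g := g) (x := y) (S := x.support ∪ y.support) subset_union_right,
    ← Finset.sum_add_distrib]
  apply Finset.sum_congr rfl
  intro i _
  by_cases hx : i ∈ x.support
  · have hy : i ∉ y.support := fun hy => (Finset.disjoint_left.1 h) hx hy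
    have h0 : y i = 0 := by simpa using hy
    simp [h0]
  · have h0 : x i = 0 := by simpa using hx
    simp [h0]

theorem pr_smul (g : E) (t : ℝ) (x : E) : pr g (t • x) = |t| * pr g x := by
  classical
  rw [pr_eq_sum (S := x.support) (Finsupp.support_smul), pr, Finset.mul_sum]
  apply Finset.sum_congr rfl
  intro i _
  simp [abs_mul]; ring

theorem pr_mono {g g' x x' : E} (hg : ∀ i, |g i| ≤ |g' i|) (hx : ∀ i, |x i| ≤ |x' i|) :
    pr g x ≤ pr g' x' := by
  classical
  rw [pr_eq_sum (g := g) (x := x) (S := x.support ∪ x'.support) subset_union_left,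
    pr_eq_sum (g := g') (x := x') (S := x.support ∪ x'.support) subset_union_right]
  exact Finset.sum_le_sum fun i _ => mul_le_mul (hg i) (hx i) (abs_nonneg _) (abs_nonneg _)

theorem abs_res_le (A : Set ℕ) (x : E) (i : ℕ) : |res A x i| ≤ |x i| := by
  classical
  rw [res_apply]; split_ifs <;> simp

theorem abs_cls_le (c : ℕ → ℕ) (k : ℕ) (x : E) (i : ℕ) : |cls c k x i| ≤ |x i| :=
  abs_res_le _ _ _

theorem Lat.res_le {μ : Seminorm ℝ E} (h : Lat μ) (A : Set ℕ) (x : E) : μ (res A x) ≤ μ x :=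
  h _ _ (abs_res_le A x)

theorem Lat.cls_le {μ : Seminorm ℝ E} (h : Lat μ) (c : ℕ → ℕ) (k : ℕ) (x : E) :
    μ (cls c k x) ≤ μ x := h _ _ (abs_cls_le c k x)

theorem fS_ge_one {n : ℕ} (hn : 1 ≤ n) : 1 ≤ fS n := by
  rw [fS]
  have : 0 ≤ Real.logb 2 n := Real.logb_nonneg (by norm_num) (by exact_mod_cast hn)
  linarith

end Pool.Agent.Lib_helper25.AD
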