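import Mathlib

/-!
# MP_a4bf89_an: bounded distortion and asymptotic l_p spaces. Definitions.
-/

set_option autoImplicit false

open Finset

namespace Pool.Agent.Lib_helper25.AD

/-- Finitely supported real sequences. -/
abbrev E := ℕ →₀ ℝ

/-- Restriction to a set of coordinates. -/
noncomputable def res (A : Set ℕ) : E →ₗ[ℝ] E where
  toFun x := by classical exact x.filter (· ∈ A)
  map_add' x y := by classical exact Finsupp.filter_add
  map_smul' a x := by classical exact Finsupp.filter_smul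

/-- The colour class `k` of `x` for the colouring `c`. -/
noncomputable def cls (c : ℕ → ℕ) (k : ℕ) : E →ₗ[ℝ] E := res {i | c i = k}

/-- The places where a colouring changes. -/
def jump (c : ℕ → ℕ) : Set ℕ := {i | 0 < i ∧ c i ≠ c (i - 1)}

/-- `u` lies before `v`. -/
def Bef (u v : E) : Prop := ∀ a ∈ u.support, ∀ b ∈ v.support, a < b

/-- Block sequences. -/
structure IsBlk (y : ℕ → E) : Prop where
  ne : ∀ i, y i ≠ 0
  lt : ∀ i, Bef (y i) (y (i + 1))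

/-- Block sequences of vectors with rational coordinates. -/
structure RBlk (y : ℕ → E) : Prop extends IsBlk y where
  rat : ∀ i j, ∃ q : ℚ, (y i) j = (q : ℝ)

/-- The (algebraic) span of a sequence. -/
noncomputable def bsp (y : ℕ → E) : Submodule ℝ E := Submodule.span ℝ (Set.range y)

/-- `z` is a sequence in the span of `y`. -/
def Le (z y : ℕ → E) : Prop := ∀ i, z i ∈ bsp y

/-- `z` is eventually in the span of `y`. -/
def LeStar (z y : ℕ → E) : Prop := ∃ n, ∀ i, n ≤ i → z i ∈ bsp y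

/-- tail of a sequence -/
def tl (n : ℕ) (y : ℕ → E) : ℕ → E := fun i => y (i + n)

/-- starting points of the blocks -/
def starts (y : ℕ → E) : Set ℕ := {s | ∃ i, s ∈ (y i).support ∧ ∀ t ∈ (y i).support, s ≤ t}

/-- linear combinations of a sequence -/
noncomputable def lc (z : ℕ → E) : E →ₗ[ℝ] E := Finsupp.linearCombination ℝ z

/-- Bounded distortion, general form. -/
def BD {V : Type} [AddCommGroup V] [Module ℝ V] (ν : Seminorm ℝ V) (D : ℝ) : Prop :=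
  ∀ N : Seminorm ℝ V, (∃ α β : ℝ, 0 < α ∧ 0 < β ∧ ∀ x, α * ν x ≤ N x ∧ N x ≤ β * ν x) →
    ∀ Y : Submodule ℝ V, ¬ FiniteDimensional ℝ Y →
      ∃ Z : Submodule ℝ V, Z ≤ Y ∧ ¬ FiniteDimensional ℝ Z ∧
        ∀ z ∈ Z, ∀ w ∈ Z, N z * ν w ≤ D * (N w * ν z)

/-- `N` is a seminorm on the subspace `V`, equivalent there to `ν`. -/
def EqOn (ν : Seminorm ℝ E) (V : Submodule ℝ E) (N : E → ℝ) : Prop :=
  (∀ a ∈ V, ∀ b ∈ V, N (a + b) ≤ N a + N b) ∧
  (∀ t : ℝ, ∀ a ∈ V, N (t • a) = |t| * N a) ∧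
  (∃ α β : ℝ, 0 < α ∧ 0 < β ∧ ∀ x ∈ V, α * ν x ≤ N x ∧ N x ≤ β * ν x)

/-- `N / ν` is constant up to the factor `D` on `V`. -/
def Quasi (ν : Seminorm ℝ E) (V : Submodule ℝ E) (N : E → ℝ) (D : ℝ) : Prop :=
  ∀ a ∈ V, ∀ b ∈ V, N a * ν b ≤ D * (N b * ν a)

/-- Bounded distortion, block form. -/
def BDF (ν : Seminorm ℝ E) (D : ℝ) : Prop :=
  ∀ y, IsBlk y → ∀ N : E → ℝ, EqOn ν (bsp y) N →
    ∃ z, IsBlk z ∧ Le z y ∧ Quasi ν (bsp z) N D

/-- Bounded distortion, block form with rational vectors. -/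
def BDFQ (ν : Seminorm ℝ E) (D : ℝ) : Prop :=
  ∀ y, RBlk y → ∀ N : E → ℝ, EqOn ν (bsp y) N →
    ∃ z, RBlk z ∧ Le z y ∧ Quasi ν (bsp z) N D

/-- The two `l_p` estimates for the colouring `c` with `m` colours at the vector `x`. -/
def LowAt (ν : Seminorm ℝ E) (p L : ℝ) (m : ℕ) (c : ℕ → ℕ) (x : E) : Prop :=
  ∑ k ∈ range m, ν (cls c k x) ^ p ≤ L * ν x ^ p

def UppAt (ν : Seminorm ℝ E) (p U : ℝ) (m : ℕ) (c : ℕ → ℕ) (x : E) : Prop :=
  ν x ^ p ≤ U * ∑ k ∈ range m, ν (cls c k x) ^ p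

/-- Asymptotic `l_p`: monotone colourings with `r` colours of vectors supported in `[r, oo)`. -/
def AsLp (ν : Seminorm ℝ E) (p K : ℝ) : Prop :=
  ∀ (r : ℕ) (s : ℕ → ℕ) (x : E), Monotone s → (∀ i, s i < r) → (∀ i ∈ x.support, r ≤ i) →
    LowAt ν p K r s x ∧ UppAt ν p K r s x

/-- Strongly asymptotic `l_p`, with a head start `T₀`. -/
def SA (ν : Seminorm ℝ E) (p C : ℝ) (T₀ : ℕ) : Prop :=
  ∀ (m : ℕ) (c : ℕ → ℕ) (x : E), (∀ i, c i < m) → (∀ i ∈ x.support, m ≤ i + T₀) →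
    LowAt ν p C m c x ∧ UppAt ν p C m c x

/-- `B` is covered by at most `M` members of the family. -/
def Cov (F : Set (Finset ℕ)) (M : ℕ) (B : Set ℕ) : Prop :=
  ∃ S : Finset (Finset ℕ), S.card ≤ M ∧ (∀ A ∈ S, A ∈ F) ∧ ∀ b ∈ B, ∃ A ∈ S, b ∈ A

/-- admissible colourings -/
def Adm (F : Set (Finset ℕ)) (m M : ℕ) (y : ℕ → E) (c : ℕ → ℕ) : Prop :=
  (∀ i, c i < m) ∧ jump c ⊆ starts y ∧ Cov F M (jump c)

/-- lower estimate at level `(m,M)` on a tail -/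
def LowK (ν : Seminorm ℝ E) (p : ℝ) (F : Set (Finset ℕ)) (m M : ℕ) (L : ℝ) (y : ℕ → E) : Prop :=
  ∃ T : ℕ, ∀ c, Adm F m M y c → ∀ x ∈ bsp y, (∀ i ∈ x.support, T ≤ i) → LowAt ν p L m c x

/-- upper estimate at level `(m,M)` on a tail -/
def UppK (ν : Seminorm ℝ E) (p : ℝ) (F : Set (Finset ℕ)) (m M : ℕ) (U : ℝ) (y : ℕ → E) : Prop :=
  ∃ T : ℕ, ∀ c, Adm F m M y c → ∀ x ∈ bsp y, (∀ i ∈ x.support, T ≤ i) → UppAt ν p U m c x

def Low (ν : Seminorm ℝ E) (p : ℝ) (F : Set (Finset ℕ)) (L : ℝ) (y : ℕ → E) : Prop :=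
  ∀ m M, LowK ν p F m M L y

def Upp (ν : Seminorm ℝ E) (p : ℝ) (F : Set (Finset ℕ)) (U : ℝ) (y : ℕ → E) : Prop :=
  ∀ m M, UppK ν p F m M U y

/-- The claim for the family `F`. -/
def Claim (ν : Seminorm ℝ E) (p L U : ℝ) (F : Set (Finset ℕ)) : Prop :=
  ∀ y, RBlk y → ∃ z, RBlk z ∧ Le z y ∧ Low ν p F L z ∧ Upp ν p F U z

def Good (ν : Seminorm ℝ E) (p L U : ℝ) (F : Set (Finset ℕ)) : Prop :=
  ∀ H : Set (Finset ℕ), Claim ν p L U H → Claim ν p L U (F ∪ H)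

/-! ### Part II -/

/-- lattice seminorms -/
def Lat (μ : Seminorm ℝ E) : Prop := ∀ x y : E, (∀ i, |x i| ≤ |y i|) → μ x ≤ μ y

/-- definite -/
def Dfn (μ : Seminorm ℝ E) : Prop := ∀ x, x ≠ 0 → 0 < μ x

/-- the pairing of absolute values -/
noncomputable def pr (g x : E) : ℝ := ∑ i ∈ x.support, |g i| * |x i|

/-- `μd` is the dual lattice norm of `μ`. -/
structure IsDual (μ μd : Seminorm ℝ E) : Prop where
  le : ∀ g y, pr g y ≤ μd g * μ y
  sup : ∀ g b, 0 ≤ b → (∀ y, μ y ≤ 1 → pr g y ≤ b) → μd g ≤ b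
  att : ∀ x, ∃ g : E, μd g ≤ 1 ∧ pr g x = μ x ∧ g.support ⊆ x.support

/-- disjointly supported -/
def Dis (x y : E) : Prop := Disjoint x.support y.support

/-- lower `s`-estimate with constant one -/
def LS (μ : Seminorm ℝ E) (s : ℕ) : Prop := ∀ x y, Dis x y → μ x ^ s + μ y ^ s ≤ μ (x + y) ^ s

/-- upper `r`-estimate with constant one -/
def UR (μ : Seminorm ℝ E) (r : ℝ) : Prop := ∀ x y, Dis x y → μ (x + y) ^ r ≤ μ x ^ r + μ y ^ r

/-- probability vectors -/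
def Prob (h : E) : Prop := (∀ i, 0 ≤ h i) ∧ ∑ i ∈ h.support, h i = 1

/-! ### Schlumprecht space -/

noncomputable def fS (n : ℕ) : ℝ := 1 + Real.logb 2 n

/-- the norming set of Schlumprecht's space -/
inductive KK : E → Prop
  | zero : KK 0
  | single (i : ℕ) : KK (Finsupp.single i 1)
  | node (l : ℕ) (g : ℕ → E) (hl : 2 ≤ l) (hg : ∀ k, k < l → KK (g k))
      (hs : ∀ i j, i < j → j < l → Bef (g i) (g j)) : KK ((fS l)⁻¹ • ∑ k ∈ range l, g k)

/-- `n` is the norm of Schlumprecht's space -/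
structure IsNS (n : Seminorm ℝ E) : Prop where
  lat : Lat n
  ge : ∀ g x, KK g → pr g x ≤ n x
  le : ∀ x b, (∀ g, KK g → pr g x ≤ b) → n x ≤ b

/-- unit ball of the dual of `n` -/
def DB (n : Seminorm ℝ E) (g : E) : Prop := ∀ x, pr g x ≤ n x

/-- total mass -/
noncomputable def mass (h : E) : ℝ := ∑ i ∈ h.support, |h i|

/-- pointwise product of absolute values -/
noncomputable def had (g x : E) : E := Finsupp.zipWith (fun a b : ℝ => |a| * |b|) (by simp) g x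

/-- the first `r` members of `x` are successive -/
def Suc (r : ℕ) (x : ℕ → E) : Prop := ∀ i j, i < j → j < r → Bef (x i) (x j)

/-- two level admissible index sets -/
def TwoAdm (I : Finset ℕ) : Prop :=
  ∃ (n : ℕ) (J : ℕ → Finset ℕ), I = (range n).biUnion J ∧ (∀ j < n, (J j).Nonempty) ∧
    (∀ i j, i < j → j < n → ∀ a ∈ J i, ∀ b ∈ J j, a < b) ∧ (∀ i ∈ I, n ≤ i) ∧
    (∀ j < n, ∀ i ∈ J j, (J j).card ≤ i)

/-- average of `h` over a finite set of indices -/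
noncomputable def av (h : ℕ → E) (J : Finset ℕ) : E := ((J.card : ℝ))⁻¹ • ∑ i ∈ J, h i

/-- the competitors in the Lozanovskii problem -/
def Cmp (n : Seminorm ℝ E) (h x : E) : Prop := n x ≤ 1 ∧ ∀ i ∈ h.support, 0 < x i

/-- `∑ h log x` -/
noncomputable def hlog (h x : E) : ℝ := ∑ i ∈ h.support, h i * Real.log (x i)

/-- `y` solves the Lozanovskii problem for `h`, and `ys = h / y` -/
structure IsMx (n : Seminorm ℝ E) (h y ys : E) : Prop where
  cmp : Cmp n h y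
  mx : ∀ x, Cmp n h x → hlog h x ≤ hlog h y
  supp : y.support = h.support
  supps : ys.support = h.support
  nn : ∀ i, 0 ≤ y i
  nns : ∀ i, 0 ≤ ys i
  mul : ∀ i, y i * ys i = h i
  db : DB n ys

/-- the entropy -/
noncomputable def Ent (n : Seminorm ℝ E) (h : E) : ℝ := sSup {e | ∃ x, Cmp n h x ∧ e = hlog h x}

/-- `x` is an average of `N` successive vectors of norm at most one -/
def IsAvg (n : Seminorm ℝ E) (N : ℕ) (x : E) : Prop :=
  1 ≤ N ∧ ∃ y : ℕ → E, (∀ i < N, n (y i) ≤ 1) ∧ Suc N y ∧ x = ((N : ℝ))⁻¹ • ∑ i ∈ range N, y i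

/-- rapidly increasing sequences of averages -/
structure RIS (n : Seminorm ℝ E) (r : ℕ) (x : ℕ → E) (N : ℕ → ℕ) : Prop where
  suc : Suc r x
  avg : ∀ j < r, IsAvg n (N j) (x j)
  big : ∀ j < r, r ≤ N j
  mono : ∀ i j, i ≤ j → j < r → N i ≤ N j
  gr : ∀ j, j + 1 < r → 2 * ∑ i ∈ range (j + 1), mass (x i) ≤ fS (N (j + 1))

/-- `s / f(s)` -/
noncomputable def GS (s : ℕ) : ℝ := (s : ℝ) / fS s

/-- a pair of type `r`: `x` and its functional `xs` -/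
structure IsTyp (n : Seminorm ℝ E) (r : ℕ) (η : ℝ) (x xs : ℕ → E) (N : ℕ → ℕ) (h : E) : Prop where
  ris : RIS n r x N
  sucs : Suc r xs
  db : ∀ j < r, DB n (xs j)
  nn : ∀ j < r, ∀ i, 0 ≤ x j i
  nns : ∀ j < r, ∀ i, 0 ≤ xs j i
  prob : Prob h
  close : mass (had (∑ j ∈ range r, xs j) (∑ j ∈ range r, x j) - (r : ℝ) • h) ≤ η * r

/-- the sets of probability vectors of type `r` -/
def MS (n : Seminorm ℝ E) (r : ℕ) (η : ℝ) : Set E := {h | ∃ x xs N, IsTyp n r η x xs N h}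

/-- the pairs `(v, v*)` of a given type in a lattice norm `μ` with dual `μd` -/
structure IsTV (μ μd : Seminorm ℝ E) (p : ℝ) (w g : ℕ → E) (I : Finset ℕ) (β : ℕ → ℝ)
    (v vs : E) : Prop where
  blk : IsBlk w
  nw : ∀ i, μ (w i) = 1
  ng : ∀ i, μd (g i) ≤ 1
  pg : ∀ i, pr (g i) (w i) = 1
  sg : ∀ i, (g i).support ⊆ (w i).support
  adm : TwoAdm I
  nb : ∀ i ∈ I, 0 ≤ β i
  sb : ∑ i ∈ I, β i = 1
  hv : v = ∑ i ∈ I, (β i ^ (1 / p)) • w i
  hvs : vs = ∑ i ∈ I, (β i ^ (1 - 1 / p)) • g i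

/-- the tree used in Part I -/
def TreeP (ν : Seminorm ℝ E) (p C : ℝ) (T₀ : ℕ) (l : List E) : Prop :=
  (∀ v ∈ l, v ≠ 0) ∧ l.Pairwise Bef ∧
    ∀ (m : ℕ) (c : ℕ → ℕ) (a : E), (∀ i, c i < m) → (∀ i ∈ a.support, i < l.length ∧ m ≤ i + T₀) →
      LowAt (ν.comp (lc fun i => l.getD i 0)) p C m c a ∧
        UppAt (ν.comp (lc fun i => l.getD i 0)) p C m c a

end Pool.Agent.Lib_helper25.AD
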